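import Pool.Agent.Helper41.RC.M_RG

/-!
# Project RC / SHARP, (Q): interpolation of head certificates, losses localised in the frequency

As `interp`, `headG_interp` (Helper41), but the second order loss is `κ D²/16 (T + m²/T)` at the frequency `m`.
-/

open MeasureTheory Set Filter intervalIntegral

namespace Pool.Agent.Helper72.SH

open Helper49.LT (ee)
open Helper41.RC
open Pool.Agent.Helper99.RC (ps NS ent)

/-- INTERPOLATION of the mixed term, frequency weights `T + m²/T` -/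
theorem interp2 {ψ₁ ψ₁' ψ₂ ψ₂' : ℝ → ℝ} {s : ℝ} (h₁ : Shift ψ₁ ψ₁' s) (h₂ : Shift ψ₂ ψ₂' s)
    {D κ T : ℝ} (hD : ∀ x, |ψ₁ x - ψ₂ x| ≤ D) (hκ : 0 < κ) (hs : 1 ≤ κ ^ 2 * (1 - s ^ 2))
    (S : Finset ℤ) (hT : 0 < T) (a b : ℤ → ℂ) {σ : ℝ} (h0 : 0 ≤ σ) (h1 : σ ≤ 1) :
    (1 - σ) * (-2 * (∑ m ∈ S, ∑ n ∈ S, a m * (starRingEnd ℂ) (b n) * KK ψ₂ m n).im)
      + σ * (-2 * (∑ m ∈ S, ∑ n ∈ S, a m * (starRingEnd ℂ) (b n) * KK ψ₁ m n).im)
      - κ * D ^ 2 / 16 * ∑ m ∈ S, (T + (m : ℝ) ^ 2 / T) * (‖a m‖ ^ 2 + ‖b m‖ ^ 2)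
      ≤ -2 * (∑ m ∈ S, ∑ n ∈ S, a m * (starRingEnd ℂ) (b n)
        * KK (fun x => ψ₂ x + σ * (ψ₁ x - ψ₂ x)) m n).im := by
  have hpi := Real.pi_pos
  have hc1 := h₁.cont
  have hc2 := h₂.cont
  have hD0 : 0 ≤ D := le_trans (abs_nonneg _) (hD 0)
  set P : ℝ → ℝ → ℝ := fun τ y => ψ₂ y + τ * (ψ₁ y - ψ₂ y) with hP
  set F : ℝ → ℝ → ℂ := fun τ x => ∑ m ∈ S, ∑ n ∈ S, a m * (starRingEnd ℂ) (b n) * cc (P τ) m n x with hF
  set F' : ℝ → ℝ → ℂ := fun τ x => ((ψ₁ x - ψ₂ x : ℝ) : ℂ) * (tp S a (x + P τ x / 2)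
    * (starRingEnd ℂ) (tp S b (x - P τ x / 2))) with hF'
  set ma : ℤ → ℂ := fun m => (m : ℂ) * a m with hma
  set mb : ℤ → ℂ := fun m => (m : ℂ) * b m with hmb
  set F'' : ℝ → ℝ → ℂ := fun τ x => (Complex.I * (((ψ₁ x - ψ₂ x) ^ 2 / 2 : ℝ) : ℂ)) *
    (tp S ma (x + P τ x / 2) * (starRingEnd ℂ) (tp S b (x - P τ x / 2))
      + tp S a (x + P τ x / 2) * (starRingEnd ℂ) (tp S mb (x - P τ x / 2))) with hF''
  have hPc : ∀ τ, Continuous (P τ) := fun τ => hc2.add (continuous_const.mul (hc1.sub hc2))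
  have cA : ∀ (U : Finset ℤ) (c : ℤ → ℂ) (τ : ℝ), Continuous fun x : ℝ => tp U c (x + P τ x / 2) :=
    fun U c τ => (tp_cont U c).comp (continuous_id.add ((hPc τ).div_const 2))
  have cB : ∀ (U : Finset ℤ) (c : ℤ → ℂ) (τ : ℝ), Continuous fun x : ℝ => tp U c (x - P τ x / 2) :=
    fun U c τ => (tp_cont U c).comp (continuous_id.sub ((hPc τ).div_const 2))
  have hFc : ∀ τ, Continuous (F τ) := by
    intro τ
    rw [hF]
    exact continuous_finsetSum _ fun m _ => continuous_finsetSum _ fun n _ =>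
      continuous_const.mul (cc_cont (hPc τ) m n)
  have hF'c : ∀ τ, Continuous (F' τ) := fun τ =>
    (Complex.continuous_ofReal.comp (hc1.sub hc2)).mul
      ((cA S a τ).mul (Complex.continuous_conj.comp (cB S b τ)))
  have hF''c : ∀ τ, Continuous (F'' τ) := fun τ =>
    (continuous_const.mul (Complex.continuous_ofReal.comp (((hc1.sub hc2).pow 2).div_const 2))).mul
      (((cA S ma τ).mul (Complex.continuous_conj.comp (cB S b τ))).add
        ((cA S a τ).mul (Complex.continuous_conj.comp (cB S mb τ))))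
  have hFd : ∀ x τ, HasDerivAt (fun t => F t x) (F' τ x) τ := by
    intro x τ
    have h5 : HasDerivAt (fun t => F t x) (∑ m ∈ S, ∑ n ∈ S, a m * (starRingEnd ℂ) (b n)
        * (((ψ₁ x - ψ₂ x : ℝ) : ℂ) * (ex (m * (x + (ψ₂ x + τ * (ψ₁ x - ψ₂ x)) / 2))
        * (starRingEnd ℂ) (ex (n * (x - (ψ₂ x + τ * (ψ₁ x - ψ₂ x)) / 2)))))) τ := by
      rw [hF]
      refine HasDerivAt.fun_sum fun m _ => HasDerivAt.fun_sum fun n _ => ?_
      exact (cc_deriv ψ₁ ψ₂ m n x τ).const_mul _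
    refine h5.congr_deriv ?_
    rw [hF']
    simp only
    unfold tp
    rw [map_sum, Finset.sum_mul_sum, Finset.mul_sum]
    refine Finset.sum_congr rfl fun m _ => ?_
    rw [Finset.mul_sum]
    refine Finset.sum_congr rfl fun n _ => ?_
    rw [map_mul]
    ring
  have hlP : ∀ x τ, HasDerivAt (fun t => P t x) (ψ₁ x - ψ₂ x) τ := by
    intro x τ
    have h : HasDerivAt (fun t : ℝ => t * (ψ₁ x - ψ₂ x)) (ψ₁ x - ψ₂ x) τ := by
      simpa using (hasDerivAt_id τ).mul_const (ψ₁ x - ψ₂ x)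
    exact h.const_add (ψ₂ x)
  have hF'd : ∀ x τ, HasDerivAt (fun t => F' t x) (F'' τ x) τ := by
    intro x τ
    have e1 : HasDerivAt (fun t => x + P t x / 2) ((ψ₁ x - ψ₂ x) / 2) τ :=
      ((hlP x τ).div_const 2).const_add x
    have e2 : HasDerivAt (fun t => x - P t x / 2) (-((ψ₁ x - ψ₂ x) / 2)) τ :=
      ((hlP x τ).div_const 2).const_sub x
    have d1 := (tp_hasDeriv S a (x + P τ x / 2)).scomp τ e1
    have d2 := ((tp_hasDeriv S b (x - P τ x / 2)).scomp τ e2).star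
    have d3 := (d1.mul d2).const_mul (((ψ₁ x - ψ₂ x : ℝ) : ℂ))
    refine d3.congr_deriv ?_
    rw [hF'']
    simp only [Function.comp, Complex.real_smul, Complex.star_def, map_mul,
      Complex.conj_I, Complex.conj_ofReal]
    push_cast
    ring
  -- bounds by constants
  have hbt : ∀ (U : Finset ℤ) (c : ℤ → ℂ) (x : ℝ), ‖tp U c x‖ ≤ ∑ m ∈ U, ‖c m‖ := by
    intro U c x
    unfold tp
    refine le_trans (norm_sum_le _ _) (Finset.sum_le_sum fun m _ => ?_)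
    rw [norm_mul, ex_norm, mul_one]
  have hnn : ∀ (c : ℤ → ℂ), 0 ≤ ∑ m ∈ S, ‖c m‖ := fun c => Finset.sum_nonneg fun m _ => norm_nonneg _
  set B := D * ((∑ m ∈ S, ‖a m‖) * ∑ m ∈ S, ‖b m‖) with hB
  have hF'b : ∀ τ x, ‖F' τ x‖ ≤ B := by
    intro τ x
    rw [hF', hB]
    simp only
    rw [norm_mul, norm_mul, Complex.norm_real, Real.norm_eq_abs, Complex.norm_conj]
    exact mul_le_mul (hD x) (mul_le_mul (hbt S a _) (hbt S b _) (norm_nonneg _) (hnn a)) (by positivity) hD0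
  set B2 := D ^ 2 / 2 * ((∑ m ∈ S, ‖ma m‖) * (∑ m ∈ S, ‖b m‖) + (∑ m ∈ S, ‖a m‖) * ∑ m ∈ S, ‖mb m‖) with hB2
  have hsq : ∀ x, (ψ₁ x - ψ₂ x) ^ 2 ≤ D ^ 2 := by
    intro x
    rw [← sq_abs (ψ₁ x - ψ₂ x)]
    exact pow_le_pow_left₀ (abs_nonneg _) (hD x) 2
  have hF''n : ∀ τ x, ‖F'' τ x‖ ≤ D ^ 2 / 2 * (‖tp S ma (x + P τ x / 2)‖ * ‖tp S b (x - P τ x / 2)‖
      + ‖tp S a (x + P τ x / 2)‖ * ‖tp S mb (x - P τ x / 2)‖) := by
    intro τ x
    rw [hF'']
    simp only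
    rw [norm_mul, norm_mul, Complex.norm_I, one_mul, Complex.norm_real, Real.norm_eq_abs,
      abs_of_nonneg (by positivity)]
    have h2 := norm_add_le (tp S ma (x + P τ x / 2) * (starRingEnd ℂ) (tp S b (x - P τ x / 2)))
      (tp S a (x + P τ x / 2) * (starRingEnd ℂ) (tp S mb (x - P τ x / 2)))
    rw [norm_mul, norm_mul, Complex.norm_conj, Complex.norm_conj] at h2
    exact mul_le_mul (by linarith [hsq x]) h2 (norm_nonneg _) (by positivity)
  have hF''b : ∀ τ x, ‖F'' τ x‖ ≤ B2 := by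
    intro τ x
    refine le_trans (hF''n τ x) ?_
    rw [hB2]
    refine mul_le_mul_of_nonneg_left (add_le_add ?_ ?_) (by positivity)
    · exact mul_le_mul (hbt S ma _) (hbt S b _) (norm_nonneg _) (hnn ma)
    · exact mul_le_mul (hbt S a _) (hbt S mb _) (norm_nonneg _) (hnn a)
  set G : ℝ → ℂ := fun τ => ∫ x in (0 : ℝ)..(2 * Real.pi), F τ x with hG
  set G' : ℝ → ℂ := fun τ => ∫ x in (0 : ℝ)..(2 * Real.pi), F' τ x with hG'
  set G'' : ℝ → ℂ := fun τ => ∫ x in (0 : ℝ)..(2 * Real.pi), F'' τ x with hG''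
  have hGd : ∀ τ, HasDerivAt G (G' τ) τ := by
    intro τ
    exact (intervalIntegral.hasDerivAt_integral_of_dominated_loc_of_deriv_le
      (μ := volume) (a := 0) (b := 2 * Real.pi) (F := F) (F' := F') (x₀ := τ) (s := Set.univ)
      (bound := fun _ => B) Filter.univ_mem
      (Filter.Eventually.of_forall fun t => (hFc t).aestronglyMeasurable)
      ((hFc τ).intervalIntegrable _ _) (hF'c τ).aestronglyMeasurable
      (ae_of_all _ fun x _ t _ => hF'b t x) intervalIntegrable_const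
      (ae_of_all _ fun x _ t _ => hFd x t)).2
  have hG'd : ∀ τ, HasDerivAt G' (G'' τ) τ := by
    intro τ
    exact (intervalIntegral.hasDerivAt_integral_of_dominated_loc_of_deriv_le
      (μ := volume) (a := 0) (b := 2 * Real.pi) (F := F') (F' := F'') (x₀ := τ) (s := Set.univ)
      (bound := fun _ => B2) Filter.univ_mem
      (Filter.Eventually.of_forall fun t => (hF'c t).aestronglyMeasurable)
      ((hF'c τ).intervalIntegrable _ _) (hF''c τ).aestronglyMeasurable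
      (ae_of_all _ fun x _ t _ => hF''b t x) intervalIntegrable_const
      (ae_of_all _ fun x _ t _ => hF'd x t)).2
  -- the second derivative
  set W := ∑ m ∈ S, (T + (m : ℝ) ^ 2 / T) * (‖a m‖ ^ 2 + ‖b m‖ ^ 2) with hW
  have hmm : ∀ c : ℤ → ℂ, ∑ m ∈ S, ‖(m : ℂ) * c m‖ ^ 2 = ∑ m ∈ S, (m : ℝ) ^ 2 * ‖c m‖ ^ 2 := by
    intro c
    refine Finset.sum_congr rfl fun m _ => ?_
    have h1 : ‖(m : ℂ)‖ = |(m : ℝ)| := by
      rw [← Complex.ofReal_intCast, Complex.norm_real, Real.norm_eq_abs]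
    rw [norm_mul, mul_pow, h1, sq_abs]
  have hG''n : ∀ τ, 0 ≤ τ → τ ≤ 1 → ‖G'' τ‖ ≤ κ * D ^ 2 / 4 * (2 * Real.pi * W) := by
    intro τ h0' h1'
    have hsh := h₁.mix h₂ h0' h1'
    have m1 := shift_mul hsh hκ (θ := 1 / T) (by positivity) hs S S ma b
    have m2 := shift_mul hsh hκ (θ := T) hT hs S S a mb
    have i1 : IntervalIntegrable (fun x => ‖tp S ma (x + P τ x / 2)‖ * ‖tp S b (x - P τ x / 2)‖)
      volume 0 (2 * Real.pi) := ((cA S ma τ).norm.mul (cB S b τ).norm).intervalIntegrable _ _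
    have i2 : IntervalIntegrable (fun x => ‖tp S a (x + P τ x / 2)‖ * ‖tp S mb (x - P τ x / 2)‖)
      volume 0 (2 * Real.pi) := ((cA S a τ).norm.mul (cB S mb τ).norm).intervalIntegrable _ _
    have hn := intervalIntegral.norm_integral_le_of_norm_le (μ := volume) (a := 0) (b := 2 * Real.pi)
      (f := F'' τ) (g := fun x => D ^ 2 / 2 * (‖tp S ma (x + P τ x / 2)‖ * ‖tp S b (x - P τ x / 2)‖
        + ‖tp S a (x + P τ x / 2)‖ * ‖tp S mb (x - P τ x / 2)‖)) (by positivity)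
      (ae_of_all _ fun x _ => hF''n τ x) ((i1.add i2).const_mul _)
    rw [intervalIntegral.integral_const_mul, intervalIntegral.integral_add i1 i2] at hn
    refine le_trans hn ?_
    have n1 := hmm a
    have n2 := hmm b
    have hD2 : 0 ≤ D ^ 2 / 2 := by positivity
    have eW : W = T * ∑ m ∈ S, ‖a m‖ ^ 2 + T * ∑ m ∈ S, ‖b m‖ ^ 2 + 1 / T * ∑ m ∈ S, (m : ℝ) ^ 2 * ‖a m‖ ^ 2
        + 1 / T * ∑ m ∈ S, (m : ℝ) ^ 2 * ‖b m‖ ^ 2 := by
      rw [hW, Finset.mul_sum, Finset.mul_sum, Finset.mul_sum, Finset.mul_sum, ← Finset.sum_add_distrib,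
        ← Finset.sum_add_distrib, ← Finset.sum_add_distrib]
      refine Finset.sum_congr rfl fun m _ => ?_
      ring
    calc _ ≤ D ^ 2 / 2 * (κ / 2 * (2 * Real.pi * (1 / T * ∑ m ∈ S, ‖ma m‖ ^ 2 + 1 / (1 / T) * ∑ m ∈ S, ‖b m‖ ^ 2))
          + κ / 2 * (2 * Real.pi * (T * ∑ m ∈ S, ‖a m‖ ^ 2 + 1 / T * ∑ m ∈ S, ‖mb m‖ ^ 2))) :=
          mul_le_mul_of_nonneg_left (add_le_add m1 m2) hD2
      _ = κ * D ^ 2 / 4 * (2 * Real.pi * W) := by
          rw [eW, ← n1, ← n2, one_div_one_div]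
          ring
  -- concavity
  set C := κ * D ^ 2 / 2 * W with hC
  have hre : ∀ (g : ℝ → ℂ) (g' : ℂ) (τ : ℝ), HasDerivAt g g' τ →
      HasDerivAt (fun t => -(1 / Real.pi) * (g t).im) (-(1 / Real.pi) * g'.im) τ := by
    intro g g' τ hg
    have h2 : HasDerivAt (fun t => (g t).im) g'.im τ := by
      have h3 := (Complex.imCLM.hasFDerivAt (x := g τ)).comp_hasDerivAt τ hg
      exact h3
    exact h2.const_mul _
  set φ : ℝ → ℝ := fun τ => -(1 / Real.pi) * (G τ).im - C / 2 * τ ^ 2 with hφ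
  set φ' : ℝ → ℝ := fun τ => -(1 / Real.pi) * (G' τ).im - C * τ with hφ'
  set φ'' : ℝ → ℝ := fun τ => -(1 / Real.pi) * (G'' τ).im - C with hφ''
  have hd1 : ∀ τ, HasDerivAt φ (φ' τ) τ := by
    intro τ
    have h2 := (hre G (G' τ) τ (hGd τ)).sub (((hasDerivAt_id τ).pow 2).const_mul (C / 2))
    refine h2.congr_deriv ?_
    rw [hφ']
    simp only [id]
    push_cast
    ring
  have hd2 : ∀ τ, HasDerivAt φ' (φ'' τ) τ := by
    intro τ
    have h2 := (hre G' (G'' τ) τ (hG'd τ)).sub ((hasDerivAt_id τ).const_mul C)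
    refine h2.congr_deriv ?_
    rw [hφ'']
    ring
  have hφc : Continuous φ := continuous_iff_continuousAt.2 fun τ => (hd1 τ).continuousAt
  have hconc : ConcaveOn ℝ (Set.Icc (0 : ℝ) 1) φ := by
    refine concaveOn_of_hasDerivWithinAt2_nonpos (convex_Icc 0 1) hφc.continuousOn
      (fun τ _ => (hd1 τ).hasDerivWithinAt) (fun τ _ => (hd2 τ).hasDerivWithinAt) ?_
    intro τ hτ
    rw [interior_Icc] at hτ
    have h2 := hG''n τ hτ.1.le hτ.2.le
    have h3 := (abs_le.1 (le_trans (Complex.abs_im_le_norm (G'' τ)) h2)).1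
    rw [hφ'']
    simp only
    have h4 : -(1 / Real.pi) * (G'' τ).im ≤ 1 / Real.pi * (κ * D ^ 2 / 4 * (2 * Real.pi * W)) := by
      have h5 : -(G'' τ).im ≤ κ * D ^ 2 / 4 * (2 * Real.pi * W) := by linarith
      have h6 := mul_le_mul_of_nonneg_left h5 (by positivity : (0 : ℝ) ≤ 1 / Real.pi)
      linarith
    have h7 : 1 / Real.pi * (κ * D ^ 2 / 4 * (2 * Real.pi * W)) = C := by
      rw [hC]
      field_simp
      ring
    linarith
  have hfin := hconc.2 (Set.left_mem_Icc.2 zero_le_one) (Set.right_mem_Icc.2 zero_le_one)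
    (sub_nonneg.2 h1) h0 (by ring : 1 - σ + σ = 1)
  simp only [smul_eq_mul, mul_zero, mul_one, zero_add] at hfin
  -- the values
  have hval : ∀ τ, -2 * (∑ m ∈ S, ∑ n ∈ S, a m * (starRingEnd ℂ) (b n) * KK (P τ) m n).im
      = -(1 / Real.pi) * (G τ).im := by
    intro τ
    have e2 : ∑ m ∈ S, ∑ n ∈ S, a m * (starRingEnd ℂ) (b n) * KK (P τ) m n
        = (1 / (2 * Real.pi) : ℂ) * G τ := by
      rw [hG]
      simp only
      rw [hF]
      simp only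
      rw [intervalIntegral.integral_finsetSum, Finset.mul_sum]
      · refine Finset.sum_congr rfl fun m _ => ?_
        rw [intervalIntegral.integral_finsetSum, Finset.mul_sum]
        · refine Finset.sum_congr rfl fun n _ => ?_
          rw [intervalIntegral.integral_const_mul, KK_cc]
          ring
        · intro n _
          exact (continuous_const.mul (cc_cont (hPc τ) m n)).intervalIntegrable _ _
      · intro m _
        exact (continuous_finsetSum _ fun n _ =>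
          continuous_const.mul (cc_cont (hPc τ) m n)).intervalIntegrable _ _
    rw [e2, show (1 / (2 * Real.pi) : ℂ) = ((1 / (2 * Real.pi) : ℝ) : ℂ) by push_cast; ring,
      Complex.im_ofReal_mul]
    field_simp
  have v0 := hval 0
  have v1 := hval 1
  have vσ := hval σ
  have p0 : P 0 = ψ₂ := by
    funext y
    rw [hP]
    ring
  have p1 : P 1 = ψ₁ := by
    funext y
    rw [hP]
    ring
  rw [p0] at v0
  rw [p1] at v1
  rw [v0, v1]
  have vσ' : -2 * (∑ m ∈ S, ∑ n ∈ S, a m * (starRingEnd ℂ) (b n)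
      * KK (fun x => ψ₂ x + σ * (ψ₁ x - ψ₂ x)) m n).im = -(1 / Real.pi) * (G σ).im := vσ
  rw [vσ']
  have hW0 : 0 ≤ W := by
    rw [hW]
    exact Finset.sum_nonneg fun m _ => by positivity
  have hC0 : 0 ≤ C := by
    rw [hC]
    positivity
  have e3 : φ 0 = -(1 / Real.pi) * (G 0).im := by
    rw [hφ]
    ring
  have e4 : φ 1 = -(1 / Real.pi) * (G 1).im - C / 2 := by
    rw [hφ]
    ring
  have e5 : φ σ = -(1 / Real.pi) * (G σ).im - C / 2 * σ ^ 2 := rfl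
  rw [e3, e4, e5] at hfin
  have e6 : κ * D ^ 2 / 16 * W = C / 8 := by
    rw [hC]
    ring
  rw [e6]
  nlinarith [mul_nonneg hC0 (sq_nonneg (2 * σ - 1))]

/-- INTERPOLATION of head certificates, general form, losses with frequency weights -/
theorem headG_interp2 {d₀ k₀ d₁ k₁ ph f : ℝ} {bil e2 e3 gs gp gr gs' gp' gr' : ℤ → ℝ} {E : Seq3} {K : ℕ}
    (hK : 1 ≤ K) (H0 : HeadG d₀ k₀ ph bil f e2 e3 E gs gp gr K)
    (H1 : HeadG d₁ k₁ ph bil f e2 e3 E gs gp gr K) {σ D κ T : ℝ} (hσ1 : σ < 1) (hk₀ : 3 / 2 * |k₀| ≤ σ)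
    (hk₁ : 3 / 2 * |k₁| ≤ σ) (hκ : 0 < κ) (hκσ : 1 ≤ κ ^ 2 * (1 - σ ^ 2)) (hT : 0 < T) (hD : |d₀ - d₁| + |k₀ - k₁| ≤ D)
    (hs : ∀ n : ℤ, |n| ≤ K → gs' n ≤ gs n - 2 * (κ * D ^ 2 / 16 * (T + ((n : ℝ) + 1) ^ 2 / T)))
    (hp : ∀ n : ℤ, |n| ≤ K → gp' n ≤ gp n - 6 * (κ * D ^ 2 / 16 * (T + ((n : ℝ) + 1) ^ 2 / T)))
    (hr : ∀ n : ℤ, |n| ≤ K → gr' n ≤ gr n - 147 / 16 * (κ * D ^ 2 / 16 * (T + ((n : ℝ) + 1) ^ 2 / T)))
    {t : ℝ} (h0 : 0 ≤ t) (h1 : t ≤ 1) :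
    HeadG ((1 - t) * d₀ + t * d₁) ((1 - t) * k₀ + t * k₁) ph bil f e2 e3 E gs' gp' gr' K := by
  intro p r s hP
  have a0 := H0 p r s hP
  have a1 := H1 p r s hP
  rw [HG_eq _ _ _ _ _ _ _ K hK] at a0 a1 ⊢
  have hs0 : 0 ≤ σ := le_trans (by positivity) hk₀
  have g0 := shift_sin (-d₀) k₀ ph (by linarith)
  have g0' : Shift (ps d₀ k₀ ph) (fun x => 3 * k₀ * Real.cos (3 * x + ph)) σ :=
    ⟨g0.d, g0.c, g0.p, fun x => le_trans (g0.b x) (by linarith), hσ1⟩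
  have g1 := shift_sin (-d₁) k₁ ph (by linarith)
  have g1' : Shift (ps d₁ k₁ ph) (fun x => 3 * k₁ * Real.cos (3 * x + ph)) σ :=
    ⟨g1.d, g1.c, g1.p, fun x => le_trans (g1.b x) (by linarith), hσ1⟩
  set H := Finset.Icc (1 - (K : ℤ)) (1 + K) with hH
  have hDx : ∀ x, |ps d₁ k₁ ph x - ps d₀ k₀ ph x| ≤ D := by
    intro x
    unfold ps
    have e : -d₁ + k₁ * Real.sin (3 * x + ph) - (-d₀ + k₀ * Real.sin (3 * x + ph))
        = (d₀ - d₁) + (k₁ - k₀) * Real.sin (3 * x + ph) := by ring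
    rw [e]
    refine le_trans (abs_add_le _ _) ?_
    rw [abs_mul, abs_sub_comm k₁ k₀]
    have h2 := Real.abs_sin_le_one (3 * x + ph)
    nlinarith [abs_nonneg (k₀ - k₁)]
  have hi := interp2 g1' g0' hDx hκ hκσ H hT (aw p r s) (bw p r s) h0 h1
  have hfun : (fun x => ps d₀ k₀ ph x + t * (ps d₁ k₁ ph x - ps d₀ k₀ ph x))
      = ps ((1 - t) * d₀ + t * d₁) ((1 - t) * k₀ + t * k₁) ph := by
    funext x
    unfold ps
    ring
  rw [hfun] at hi
  unfold RG at a0 a1 ⊢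
  have hD0 : 0 ≤ D := le_trans (abs_nonneg _) (hDx 0)
  have hV : κ * D ^ 2 / 16 * ∑ m ∈ H, (T + (m : ℝ) ^ 2 / T) * (‖aw p r s m‖ ^ 2 + ‖bw p r s m‖ ^ 2)
      ≤ ∑ n ∈ Finset.Icc (-(K : ℤ)) K, κ * D ^ 2 / 16 * (T + ((n : ℝ) + 1) ^ 2 / T) * Vw p r s n := by
    have e := shift_idx (K : ℤ) (fun n => κ * D ^ 2 / 16 * (T + ((n : ℝ) + 1) ^ 2 / T) * Vw p r s n)
    rw [← e, Finset.mul_sum, hH]
    refine Finset.sum_le_sum fun m _ => ?_
    have h2 := ab_le hP m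
    have e2 : (((m - 1 : ℤ) : ℝ) + 1) = m := by push_cast; ring
    rw [e2, mul_assoc]
    exact mul_le_mul_of_nonneg_left (mul_le_mul_of_nonneg_left h2 (by positivity)) (by positivity)
  have hM : MG gs' gp' gr' (Finset.Icc (-(K : ℤ)) K) p r s
      + ∑ n ∈ Finset.Icc (-(K : ℤ)) K, κ * D ^ 2 / 16 * (T + ((n : ℝ) + 1) ^ 2 / T) * Vw p r s n
      ≤ MG gs gp gr (Finset.Icc (-(K : ℤ)) K) p r s := by
    unfold MG
    rw [← Finset.sum_add_distrib]
    refine Finset.sum_le_sum fun n hn => ?_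
    have hnK : |n| ≤ (K : ℤ) := by
      rw [Finset.mem_Icc] at hn
      exact abs_le.2 hn
    unfold Vw
    nlinarith [mul_le_mul_of_nonneg_right (hs n hnK) (sq_nonneg ‖s n‖),
      mul_le_mul_of_nonneg_right (hp n hnK) (sq_nonneg ‖p n‖),
      mul_le_mul_of_nonneg_right (hr n hnK) (sq_nonneg ‖r n‖)]
  have b0 := mul_le_mul_of_nonneg_left a0 (sub_nonneg.2 h1)
  have b1 := mul_le_mul_of_nonneg_left a1 h0
  linarith [hi, hM, hV, b0, b1]


end Pool.Agent.Helper72.SH
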