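import Pool.Agent.Helper72.SH.CertN0
import Pool.Agent.Helper72.SH.CertN1
import Pool.Agent.Helper72.SH.CertN2
import Pool.Agent.Helper72.SH.CertN3
import Pool.Agent.Helper72.SH.CertN4

/-!
# Project SHARP, zone I: the five head certificates
-/

set_option autoImplicit false

namespace Pool.Agent.Helper72.SH

/-- the five certificates -/
theorem heads : Pool.Agent.Helper46.RC.QZ.Heads :=
  ⟨Nd0.cert, Nd1.cert, Nd2.cert, Nd3.cert, Nd4.cert⟩

end Pool.Agent.Helper72.SH
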